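import Pool.Agent.Helper62.BM.Stm2

/-!
# The field of rational functions over the ultraproduct (package N1)
-/

set_option autoImplicit false

open Polynomial Filter

namespace Pool.Agent.Helper72.BM

open Pool.Agent.Helper62.BM

section emb

variable (U : Ultrafilter ℕ) {C F : ℕ → Type} [∀ i, Field (C i)] [∀ i, Field (F i)]
  (c : ∀ i, C i →+* F i) (x : ∀ i, F i)

/-- The evaluation on polynomials. -/
noncomputable def gev : (UP U C)[X] →+* UP U F :=
  Polynomial.eval₂RingHom (mapU U c) (mk U x)

theorem gev_map (q : Polynomial (∀ i, C i)) :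
    gev U c x (q.map (mk U)) =
      mk U fun i => (q.map (Pi.evalRingHom C i)).eval₂ (c i) (x i) := by
  have h : (gev U c x).comp (Polynomial.mapRingHom (mk U)) =
      (mk U).comp (RingHom.pi fun i => (Polynomial.eval₂RingHom (c i) (x i)).comp
        (Polynomial.mapRingHom (Pi.evalRingHom C i))) := by
    refine Polynomial.ringHom_ext (fun a => ?_) ?_
    · rw [RingHom.comp_apply, RingHom.comp_apply, Polynomial.coe_mapRingHom, Polynomial.map_C,
        gev, Polynomial.coe_eval₂RingHom, Polynomial.eval₂_C, mapU_mk]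
      congr 1
      funext i
      change c i (a i) = ((Polynomial.C a).map (Pi.evalRingHom C i)).eval₂ (c i) (x i)
      rw [Polynomial.map_C, Polynomial.eval₂_C]
      rfl
    · rw [RingHom.comp_apply, RingHom.comp_apply, Polynomial.coe_mapRingHom, Polynomial.map_X,
        gev, Polynomial.coe_eval₂RingHom, Polynomial.eval₂_X]
      congr 1
      funext i
      change x i = (X.map (Pi.evalRingHom C i)).eval₂ (c i) (x i)
      rw [Polynomial.map_X, Polynomial.eval₂_X]
  exact congrArg (fun φ : Polynomial (∀ i, C i) →+* UP U F => φ q) h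

theorem map_surj (q : (UP U C)[X]) : ∃ r : Polynomial (∀ i, C i), r.map (mk U) = q :=
  Polynomial.map_surjective (mk U) (mk_surj U) q

theorem gev_inj (hx : ∀ d : ℕ, ∀ᶠ i in (U : Filter ℕ), ∀ q : (C i)[X], q.natDegree ≤ d →
      q.eval₂ (c i) (x i) = 0 → q = 0) : Function.Injective (gev U c x) := by
  rw [injective_iff_map_eq_zero]
  intro q hq
  obtain ⟨r, rfl⟩ := map_surj U q
  rw [gev_map, mk_eq_zero] at hq
  have h1 : ∀ᶠ i in (U : Filter ℕ), r.map (Pi.evalRingHom C i) = 0 := by
    filter_upwards [hq, hx r.natDegree] with i h2 h3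
    exact h3 _ Polynomial.natDegree_map_le h2
  ext n
  rw [Polynomial.coeff_map, Polynomial.coeff_zero, mk_eq_zero]
  filter_upwards [h1] with i h2
  have h3 := congrArg (fun q => Polynomial.coeff q n) h2
  simpa using h3

theorem der_eval₂ {C F : Type} [Field C] [Field F] (c : C →+* F) (x : F) (D : Der F)
    (h1 : ∀ y, D (c y) = 0) (h2 : D x = 1) (q : C[X]) :
    D (q.eval₂ c x) = (derivative q).eval₂ c x := by
  induction q using Polynomial.induction_on' with
  | add p q hp hq => rw [Polynomial.eval₂_add, map_add, hp, hq, derivative_add,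
      Polynomial.eval₂_add]
  | monomial n a =>
    rw [← Polynomial.C_mul_X_pow_eq_monomial, Polynomial.eval₂_mul, Polynomial.eval₂_C,
      Polynomial.eval₂_pow, Polynomial.eval₂_X, Derivation.leibniz, Derivation.leibniz_pow, h1, h2,
      derivative_C_mul_X_pow, Polynomial.eval₂_mul, Polynomial.eval₂_C, Polynomial.eval₂_pow,
      Polynomial.eval₂_X, map_mul, map_natCast]
    simp only [smul_eq_mul, nsmul_eq_mul]
    ring

end emb

theorem emb : S_Emb := by
  intro U C F _ _ c x hx
  have hinj := gev_inj U c x hx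
  have hι : ∀ q : (UP U C)[X], (IsFractionRing.lift hinj : KX (UP U C) →+* UP U F) (ι _ q) =
      gev U c x q := fun q => IsFractionRing.lift_algebraMap hinj q
  refine ⟨(IsFractionRing.lift hinj : KX (UP U C) →+* UP U F), fun q => ?_, ?_⟩
  · rw [hι, gev_map]
  · intro D DF hD h1 h2 z
    set f : KX (UP U C) →+* UP U F := IsFractionRing.lift hinj with hf
    have hA : ∀ q : (UP U C)[X], f (D (ι _ q)) = der U DF (f (ι _ q)) := by
      intro q
      obtain ⟨r, rfl⟩ := map_surj U q
      rw [hD, Polynomial.derivative_map, hι, hι, gev_map, gev_map, der_mk]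
      congr 1
      funext i
      rw [der_eval₂ (c i) (x i) (DF i) (h1 i) (h2 i), ← Polynomial.derivative_map]
    obtain ⟨a, b, hb, rfl⟩ := IsFractionRing.div_surjective (A := (UP U C)[X]) z
    have hb0 : (b : (UP U C)[X]) ≠ 0 := nonZeroDivisors.ne_zero hb
    have hιb : ι (UP U C) b ≠ 0 := by
      intro h
      exact hb0 ((map_eq_zero_iff _ (IsFractionRing.injective (UP U C)[X] (KX (UP U C)))).1 h)
    have hfb : f (ι (UP U C) b) ≠ 0 := fun h => hιb ((map_eq_zero_iff f f.injective).1 h)
    set z : KX (UP U C) := ι (UP U C) a / ι (UP U C) b with hz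
    have hza : z * ι (UP U C) b = ι (UP U C) a := div_mul_cancel₀ _ hιb
    have e1 := hA a
    rw [← hza, Derivation.leibniz, map_mul, Derivation.leibniz, map_add] at e1
    simp only [smul_eq_mul, map_mul] at e1
    rw [hA b] at e1
    have e2 : f (ι (UP U C) b) * f (D z) = f (ι (UP U C) b) * der U DF (f z) := by
      linear_combination e1
    exact mul_left_cancel₀ hfb e2

end Pool.Agent.Helper72.BM
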