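import Pool.Agent.Helper72.BM.Mat

/-!
# The change of basis (package P4)
-/

set_option autoImplicit false

open Polynomial Matrix Finset

namespace Pool.Agent.Helper72.BM

open Pool.Agent.Helper62.BM

section sums

variable {F : Type} [Field F]

theorem sum_P (x z : F) (k : ℕ) :
    (x - z) * ∑ p ∈ antidiagonal k, x ^ p.1 * z ^ p.2 = x ^ (k + 1) - z ^ (k + 1) := by
  induction k with
  | zero => simp
  | succ k ih =>
    rw [Finset.Nat.sum_antidiagonal_succ]
    have e : ∑ p ∈ antidiagonal k, x ^ (p.1 + 1) * z ^ p.2 =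
        x * ∑ p ∈ antidiagonal k, x ^ p.1 * z ^ p.2 := by
      rw [Finset.mul_sum]
      exact Finset.sum_congr rfl fun p _ => by ring
    simp only at e ⊢
    rw [e]
    linear_combination x * ih

theorem sum_T (x z : F) (k : ℕ) :
    (x - z) ^ 2 * ∑ p ∈ antidiagonal k, ((p.1 : F) - (p.2 : F)) * (x ^ p.1 * z ^ p.2) =
      ((k : F) + 2) * (x - z) * (x ^ (k + 1) + z ^ (k + 1)) - 2 * (x ^ (k + 2) - z ^ (k + 2)) := by
  induction k with
  | zero => simp; ring
  | succ k ih =>
    rw [Finset.Nat.sum_antidiagonal_succ]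
    have e : ∑ p ∈ antidiagonal k, (((p.1 + 1 : ℕ) : F) - (p.2 : F)) *
        (x ^ (p.1 + 1) * z ^ p.2) =
        x * (∑ p ∈ antidiagonal k, ((p.1 : F) - (p.2 : F)) * (x ^ p.1 * z ^ p.2)) +
        x * ∑ p ∈ antidiagonal k, x ^ p.1 * z ^ p.2 := by
      rw [Finset.mul_sum, Finset.mul_sum, ← Finset.sum_add_distrib]
      exact Finset.sum_congr rfl fun p _ => by push_cast; ring
    simp only at e ⊢
    rw [e]
    have hP := sum_P x z k
    push_cast
    linear_combination x * ih + x * (x - z) * hP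

/-- Regrouping a double sum. -/
theorem sum_regroup (n : ℕ) (G : ℕ → ℕ → F) (h0 : ∀ l m, n ≤ l + m → G l m = 0) :
    ∑ l : Fin n, ∑ m : Fin n, G l m = ∑ k ∈ range n, ∑ p ∈ antidiagonal k, G p.1 p.2 := by
  have e1 : ∑ l : Fin n, ∑ m : Fin n, G l m = ∑ p ∈ range n ×ˢ range n, G p.1 p.2 := by
    rw [Finset.sum_product]
    rw [← Fin.sum_univ_eq_sum_range (fun l => ∑ m ∈ range n, G l m)]
    exact Finset.sum_congr rfl fun l _ => Fin.sum_univ_eq_sum_range (fun m => G l m) n
  have e2 : ∑ p ∈ range n ×ˢ range n, G p.1 p.2 =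
      ∑ p ∈ (range n ×ˢ range n).filter (fun p => p.1 + p.2 < n), G p.1 p.2 := by
    rw [Finset.sum_filter]
    refine Finset.sum_congr rfl fun p _ => ?_
    split_ifs with h
    · rfl
    · exact h0 _ _ (not_lt.1 h)
  rw [e1, e2, ← Finset.sum_fiberwise_of_maps_to (t := range n) (g := fun p : ℕ × ℕ => p.1 + p.2)]
  · refine Finset.sum_congr rfl fun k hk => ?_
    refine Finset.sum_congr ?_ fun _ _ => rfl
    ext p
    simp only [Finset.mem_filter, Finset.mem_product, Finset.mem_range,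
      Finset.HasAntidiagonal.mem_antidiagonal]
    rw [Finset.mem_range] at hk
    constructor
    · rintro ⟨_, h⟩
      exact h
    · intro h
      exact ⟨⟨⟨by omega, by omega⟩, by omega⟩, h⟩
  · intro p hp
    rw [Finset.mem_filter] at hp
    exact Finset.mem_range.2 hp.2

/-- The two-variable identity. -/
theorem two_var (n : ℕ) (h : F[X]) (hn : h.natDegree ≤ n + 1) (x z : F) :
    (x - z) ^ 2 * ∑ l : Fin n, ∑ m : Fin n,
      (((l : ℕ) : F) - ((m : ℕ) : F)) * h.coeff ((l : ℕ) + m + 2) * (x ^ (l : ℕ) * z ^ (m : ℕ)) =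
      (x - z) * ((derivative h).eval x + (derivative h).eval z) - 2 * (h.eval x - h.eval z) := by
  rw [sum_regroup n (fun l m => ((l : F) - (m : F)) * h.coeff (l + m + 2) * (x ^ l * z ^ m))
    (fun l m hlm => by
      rw [coeff_eq_zero_of_natDegree_lt (by omega : h.natDegree < l + m + 2)]; ring)]
  rw [Finset.mul_sum]
  have e : ∀ k ∈ range n, (x - z) ^ 2 * ∑ p ∈ antidiagonal k,
      ((p.1 : F) - (p.2 : F)) * h.coeff (p.1 + p.2 + 2) * (x ^ p.1 * z ^ p.2) =
      h.coeff (k + 2) * (((k : F) + 2) * (x - z) * (x ^ (k + 1) + z ^ (k + 1)) -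
        2 * (x ^ (k + 2) - z ^ (k + 2))) := by
    intro k _
    rw [← sum_T x z k]
    rw [Finset.mul_sum, Finset.mul_sum, Finset.mul_sum]
    refine Finset.sum_congr rfl fun p hp => ?_
    rw [Finset.HasAntidiagonal.mem_antidiagonal.1 hp]
    ring
  rw [Finset.sum_congr rfl e]
  have hev : ∀ y : F, h.eval y = ∑ k ∈ range (n + 2), h.coeff k * y ^ k := fun y =>
    Polynomial.eval_eq_sum_range' (by omega) y
  have hdv : ∀ y : F, (derivative h).eval y = ∑ k ∈ range (n + 2), h.coeff k * k * y ^ (k - 1) := by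
    intro y
    rw [Polynomial.derivative_eval]
    rw [Polynomial.sum_over_range' _ _ (n + 2) (by omega)]
    intro k
    simp
  rw [hev, hev, hdv, hdv]
  simp only [Finset.sum_range_succ', Nat.cast_add, Nat.cast_one, Nat.cast_zero]
  rw [← sub_eq_zero]
  have e3 : ∀ k ∈ range n, h.coeff (k + 2) * (((k : F) + 2) * (x - z) * (x ^ (k + 1) + z ^ (k + 1)) -
        2 * (x ^ (k + 2) - z ^ (k + 2))) =
        (x - z) * (h.coeff (k + 1 + 1) * ((k : F) + 1 + 1) * x ^ (k + 1 + 1 - 1) +
          h.coeff (k + 1 + 1) * ((k : F) + 1 + 1) * z ^ (k + 1 + 1 - 1)) -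
        2 * (h.coeff (k + 1 + 1) * x ^ (k + 1 + 1) - h.coeff (k + 1 + 1) * z ^ (k + 1 + 1)) := by
    intro k _
    simp only [Nat.add_sub_cancel]
    ring
  rw [Finset.sum_congr rfl e3, Finset.sum_sub_distrib, ← Finset.mul_sum, ← Finset.mul_sum,
    Finset.sum_add_distrib, Finset.sum_sub_distrib]
  simp
  ring

end sums

section EQ

variable {F : Type} [Field F] {n : ℕ} {a : Fin n → F}

theorem hp_eval (t : F) (a : Fin n → F) (i : Fin n) : (hp t a).eval (a i) = 0 := by
  rw [hp, eval_mul, eval_prod, Finset.prod_eq_zero (Finset.mem_univ i), mul_zero]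
  simp

theorem hp_deriv_eval (t : F) (a : Fin n → F) (i : Fin n) :
    (derivative (hp t a)).eval (a i) = (a i - t) * dd a i := by
  have h1 : (derivative (∏ j, (X - C (a j)) : F[X])).eval (a i) = dd a i := by
    have := Lagrange.eval_nodal_derivative_eval_node_eq (s := (univ : Finset (Fin n))) (v := a)
      (Finset.mem_univ i)
    rw [Lagrange.eval_nodal (s := univ.erase i)] at this
    exact this
  have h2 : (∏ j, (X - C (a j)) : F[X]).eval (a i) = 0 :=
    Lagrange.eval_nodal_at_node (s := (univ : Finset (Fin n))) (v := a) (Finset.mem_univ i)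
  rw [hp, derivative_mul, eval_add, eval_mul, eval_mul, h1, h2]
  simp

theorem vand_Qx (t : F) (a : Fin n → F) (i j : Fin n) :
    (Matrix.vandermonde a * Qx t a * (Matrix.vandermonde a)ᵀ) i j =
      (∑ l : Fin n, ∑ m : Fin n, (((l : ℕ) : F) - ((m : ℕ) : F)) *
        (hp t a).coeff ((l : ℕ) + m + 2) * (a i ^ (l : ℕ) * a j ^ (m : ℕ))) / 2 := by
  rw [Matrix.mul_apply]
  simp only [Matrix.mul_apply, Finset.sum_mul, Matrix.transpose_apply, Matrix.vandermonde_apply, Qx,
    Matrix.of_apply]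
  rw [Finset.sum_comm, Finset.sum_div]
  refine Finset.sum_congr rfl fun l _ => ?_
  rw [Finset.sum_div]
  refine Finset.sum_congr rfl fun m _ => ?_
  ring

theorem vand_det_ne (ha : Function.Injective a) : (Matrix.vandermonde a).det ≠ 0 :=
  Matrix.det_vandermonde_ne_zero_iff.2 ha

theorem vand_eq (h2 : (2 : F) ≠ 0) (t : F) (ha : Function.Injective a) :
    Matrix.vandermonde a * (Em a * Qb t a * (Em a)ᵀ) * (Matrix.vandermonde a)ᵀ =
      Matrix.vandermonde a * Qx t a * (Matrix.vandermonde a)ᵀ := by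
  have e : Matrix.vandermonde a * (Em a * Qb t a * (Em a)ᵀ) * (Matrix.vandermonde a)ᵀ =
      Matrix.diagonal (dd a) * Qb t a * Matrix.diagonal (dd a) := by
    have e1 := vand_mul a
    have e2 : (Em a)ᵀ * (Matrix.vandermonde a)ᵀ = Matrix.diagonal (dd a) := by
      rw [← Matrix.transpose_mul, e1, Matrix.diagonal_transpose]
    calc Matrix.vandermonde a * (Em a * Qb t a * (Em a)ᵀ) * (Matrix.vandermonde a)ᵀ =
        (Matrix.vandermonde a * Em a) * Qb t a * ((Em a)ᵀ * (Matrix.vandermonde a)ᵀ) := by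
          simp only [Matrix.mul_assoc]
      _ = _ := by rw [e1, e2]
  rw [e]
  ext i j
  rw [Matrix.mul_diagonal, Matrix.diagonal_mul, vand_Qx, Qb, Matrix.of_apply]
  split_ifs with hij
  · subst hij
    have hs : ∑ l : Fin n, ∑ m : Fin n, (((l : ℕ) : F) - ((m : ℕ) : F)) *
        (hp t a).coeff ((l : ℕ) + m + 2) * (a i ^ (l : ℕ) * a i ^ (m : ℕ)) = 0 := by
      set S := ∑ l : Fin n, ∑ m : Fin n, (((l : ℕ) : F) - ((m : ℕ) : F)) *
        (hp t a).coeff ((l : ℕ) + m + 2) * (a i ^ (l : ℕ) * a i ^ (m : ℕ)) with hS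
      have : S = -S := by
        conv_lhs => rw [hS, Finset.sum_comm]
        rw [hS, ← Finset.sum_neg_distrib]
        refine Finset.sum_congr rfl fun l _ => ?_
        rw [← Finset.sum_neg_distrib]
        refine Finset.sum_congr rfl fun m _ => ?_
        rw [show (m : ℕ) + l + 2 = l + m + 2 by omega]
        ring
      have h3 : 2 * S = 0 := by linear_combination this
      exact (mul_eq_zero.1 h3).resolve_left h2
    rw [hs]
    ring
  · have hne : a i - a j ≠ 0 := sub_ne_zero.2 fun h => hij (ha h)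
    have key := two_var n (hp t a) (by rw [hp_natDegree]) (a i) (a j)
    rw [hp_eval, hp_eval, hp_deriv_eval, hp_deriv_eval] at key
    have key2 : ∑ l : Fin n, ∑ m : Fin n, (((l : ℕ) : F) - ((m : ℕ) : F)) *
        (hp t a).coeff ((l : ℕ) + m + 2) * (a i ^ (l : ℕ) * a j ^ (m : ℕ)) =
        ((a i - t) * dd a i + (a j - t) * dd a j) / (a i - a j) := by
      rw [eq_div_iff hne]
      apply mul_left_cancel₀ hne
      linear_combination key
    rw [key2, wt_eq, wt_eq]
    have hi := dd_ne ha i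
    have hj := dd_ne ha j
    field_simp

end EQ

theorem eq : S_EQ := by
  intro F _ h2 n x a ha
  have h := vand_eq h2 x ha
  have hV : IsUnit (Matrix.vandermonde a).det := (vand_det_ne ha).isUnit
  have hVT : IsUnit ((Matrix.vandermonde a)ᵀ).det := by rw [Matrix.det_transpose]; exact hV
  have h3 : Matrix.vandermonde a * (Em a * Qb x a * (Em a)ᵀ) = Matrix.vandermonde a * Qx x a := by
    have := congrArg (fun M => M * ((Matrix.vandermonde a)ᵀ)⁻¹) h
    simpa only [Matrix.mul_nonsing_inv_cancel_right _ _ hVT] using this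
  have := congrArg (fun M => (Matrix.vandermonde a)⁻¹ * M) h3
  simpa only [Matrix.nonsing_inv_mul_cancel_left _ _ hV] using this

end Pool.Agent.Helper72.BM
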