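import Pool.Agent.Helper62.BM.Stm3

/-!
# The nonvanishing for large primes from the algebraic independence over the ultraproduct
-/

set_option autoImplicit false

open Polynomial Matrix Finset Filter

namespace Pool.Agent.Helper72.BM

open Pool.Agent.Helper62.BM

section sw

variable {C : Type} [Field C]

/-- The exchange of the two variables: the coefficient of `X ^ a`, a polynomial in `T`. -/
noncomputable def sw (β : ℕ) (Q : C[X][X]) (a : ℕ) : C[X] :=
  ∑ b ∈ range β, Polynomial.C ((Q.coeff b).coeff a) * X ^ b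

theorem sw_coeff {β : ℕ} (Q : C[X][X]) (a : ℕ) {b : ℕ} (hb : b < β) :
    (sw β Q a).coeff b = (Q.coeff b).coeff a := by
  rw [sw, finsetSum_coeff, Finset.sum_eq_single b]
  · rw [coeff_C_mul, coeff_X_pow_self, mul_one]
  · intro b' _ hb'
    rw [coeff_C_mul, coeff_X_pow, if_neg (Ne.symm hb'), mul_zero]
  · intro h
    exact absurd (Finset.mem_range.2 hb) h

theorem evT_eq {p : ℕ} {τ : KX C →+* KX C} (hτ : ∀ q, τ (ι C q) = ι C (expand C p q))
    {A₀ β : ℕ} (Q : C[X][X]) (h1 : Q.natDegree < β) (h2 : ∀ b, (Q.coeff b).natDegree < A₀) :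
    ∑ a ∈ range A₀, τ (ι C (sw β Q a)) * tX C ^ a = evT C p Q := by
  have e1 : evT C p Q = ∑ b ∈ range β, ι C (Q.coeff b) * ι C (X ^ p) ^ b :=
    Polynomial.eval₂_eq_sum_range' (ι C) h1 (ι C (X ^ p))
  have e2 : ∀ b ∈ range β, ι C (Q.coeff b) * ι C (X ^ p) ^ b =
      ∑ a ∈ range A₀, ι C (Polynomial.C ((Q.coeff b).coeff a)) * tX C ^ a * ι C (X ^ p) ^ b := by
    intro b _
    conv_lhs => rw [Polynomial.as_sum_range_C_mul_X_pow' (Q.coeff b) (h2 b)]
    rw [map_sum, Finset.sum_mul]
    exact Finset.sum_congr rfl fun a _ => by rw [map_mul, map_pow]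
  rw [e1, Finset.sum_congr rfl e2, Finset.sum_comm]
  refine Finset.sum_congr rfl fun a _ => ?_
  rw [hτ, sw, map_sum, map_sum, Finset.sum_mul]
  refine Finset.sum_congr rfl fun b _ => ?_
  rw [map_mul, map_pow, expand_C, expand_X, map_mul, map_pow]
  ring

end sw

/-- The contradiction, for any finite family `Sf i s` of functions which is algebraically independent
over the ultraproduct. -/
theorem nv_core (hEmb : S_Emb) (hTau : S_Tau) {σ : Type} [Finite σ] {e A₀ β : ℕ}
    (C : ℕ → Type) [∀ i, Field (C i)] (p : ℕ → ℕ) [∀ i, Fact (p i).Prime] [∀ i, CharP (C i) (p i)]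
    (hp : ∀ i, i ≤ p i) (D : ∀ i, Der (KX (C i))) (hD : ∀ i, IsDer (D i))
    (Sf : ∀ i, σ → KX (C i))
    (hInd : ∀ U : Ultrafilter ℕ, (∀ N : ℕ, ∀ᶠ i in (U : Filter ℕ), N < p i) →
      ∀ (τ : ∀ i, KX (C i) →+* KX (C i)),
      (∀ i q, τ i (ι (C i) q) = ι (C i) (expand (C i) (p i) q)) →
      ∀ (f' : KX (UP U fun i => KX (C i)) →+* UP U fun i => KX (C i)),
      (∀ q : Polynomial (∀ i, KX (C i)), f' (ι _ (q.map (mk U))) =
        mk U fun i => (q.map (Pi.evalRingHom (fun i => KX (C i)) i)).eval₂ (τ i) (tX (C i))) →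
      (∀ (Dk : Der (KX (UP U fun i => KX (C i)))),
        IsDer Dk → ∀ z, f' (Dk z) = der U D (f' z)) →
      ∀ G : MvPolynomial σ (KX (UP U fun i => KX (C i))),
        MvPolynomial.eval₂ f' (fun s => mk U fun i => Sf i s) G = 0 → G = 0)
    (G : ∀ i, MvPolynomial σ (C i)[X][X]) (hG : ∀ i, G i ≠ 0)
    (hdeg : ∀ i, (G i).totalDegree ≤ e)
    (hco : ∀ i m, ((G i).coeff m).natDegree < β ∧ ∀ b, (((G i).coeff m).coeff b).natDegree < A₀)
    (hev : ∀ i, MvPolynomial.eval₂ (evT (C i) (p i)) (Sf i) (G i) = 0) : False := by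
  classical
  set U : Ultrafilter ℕ := hyperfilter ℕ with hU
  have hN : ∀ N : ℕ, ∀ᶠ i in (U : Filter ℕ), N < p i := by
    intro N
    have h1 : ∀ᶠ i in (atTop : Filter ℕ), N < p i := by
      filter_upwards [eventually_gt_atTop N] with i hi
      exact lt_of_lt_of_le hi (hp i)
    rw [← Nat.cofinite_eq_atTop] at h1
    exact (hyperfilter_le_cofinite (α := ℕ)) h1
  have hT : ∀ i, ∃ τ : KX (C i) →+* KX (C i),
    (∀ q, τ (ι (C i) q) = ι (C i) (expand (C i) (p i) q)) ∧
    (∀ q : (KX (C i))[X], q.natDegree < p i → q.eval₂ τ (tX (C i)) = 0 → q = 0) ∧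
    ∀ D : Der (KX (C i)), IsDer D → ∀ z, D (τ z) = 0 := fun i => hTau (C i) (p i)
  choose τ hτ1 hτ2 hτ3 using hT
  obtain ⟨f', hf1, hf2⟩ := hEmb U (fun i => KX (C i)) (fun i => KX (C i)) τ (fun i => tX (C i)) (by
    intro d
    filter_upwards [hN d] with i hi q hq1 hq2
    exact hτ2 i q (lt_of_le_of_lt hq1 hi) hq2)
  have hind := hInd U hN τ hτ1 f' hf1 (by
    intro Dk hDk z
    refine hf2 Dk D hDk (fun i y => hτ3 i (D i) (hD i) y) (fun i => ?_) z
    rw [hD i X, derivative_X, map_one])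
  -- the finite set of the monomials
  have hfin : {m : σ →₀ ℕ | Finsupp.degree m ≤ e}.Finite := Finsupp.finite_of_degree_le e
  set M : Finset (σ →₀ ℕ) := hfin.toFinset with hM
  have hsupp : ∀ i, (G i).support ⊆ M := by
    intro i m hm
    rw [hM, Set.Finite.mem_toFinset]
    have h1 := MvPolynomial.le_totalDegree hm
    have h2 : Finsupp.degree m = m.sum fun _ k => k := rfl
    rw [Set.mem_ofPred_eq, h2]
    exact h1.trans (hdeg i)
  -- the polynomials over the product ring
  set q : (σ →₀ ℕ) → Polynomial (∀ i, KX (C i)) := fun m =>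
    ∑ b ∈ range A₀, Polynomial.C (fun i => ι (C i) (sw β ((G i).coeff m) b)) * X ^ b with hq
  have hqcoeff : ∀ m b, b < A₀ → (q m).coeff b = fun i => ι (C i) (sw β ((G i).coeff m) b) := by
    intro m b hb
    rw [hq]
    simp only
    rw [finsetSum_coeff, Finset.sum_eq_single b]
    · rw [coeff_C_mul, coeff_X_pow_self, mul_one]
    · intro b' _ hb'
      rw [coeff_C_mul, coeff_X_pow, if_neg (Ne.symm hb'), mul_zero]
    · intro h
      exact absurd (Finset.mem_range.2 hb) h
  have hqev : ∀ m i, ((q m).map (Pi.evalRingHom (fun i => KX (C i)) i)).eval₂ (τ i) (tX (C i)) =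
      evT (C i) (p i) ((G i).coeff m) := by
    intro m i
    rw [← evT_eq (hτ1 i) ((G i).coeff m) (hco i m).1 (hco i m).2, hq]
    simp only
    rw [Polynomial.map_sum, Polynomial.eval₂_finsetSum]
    refine Finset.sum_congr rfl fun b _ => ?_
    rw [Polynomial.map_mul, Polynomial.map_C, Polynomial.map_pow, Polynomial.map_X,
      Polynomial.eval₂_mul, Polynomial.eval₂_C, Polynomial.eval₂_pow, Polynomial.eval₂_X]
    rfl
  set Gt : MvPolynomial σ (KX (UP U fun i => KX (C i))) :=
    ∑ m ∈ M, MvPolynomial.monomial m (ι _ ((q m).map (mk U))) with hGt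
  have hGt0 : Gt = 0 := by
    apply hind
    rw [hGt, MvPolynomial.eval₂_sum]
    have e1 : ∀ m ∈ M, MvPolynomial.eval₂ f' (fun s => mk U fun i => Sf i s)
        (MvPolynomial.monomial m (ι _ ((q m).map (mk U)))) =
        mk U ((fun i => evT (C i) (p i) ((G i).coeff m)) * m.prod fun s k =>
          (fun i => Sf i s) ^ k) := by
      intro m _
      rw [MvPolynomial.eval₂_monomial, hf1, map_mul, Finsupp.prod, Finsupp.prod, map_prod]
      congr 1
      congr 1
      funext i
      exact hqev m i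
    rw [Finset.sum_congr rfl e1, ← map_sum, mk_eq_zero]
    refine Filter.Eventually.of_forall fun i => ?_
    have h2 := hev i
    rw [MvPolynomial.eval₂_eq, Finset.sum_subset (hsupp i) (fun m _ hm => by
      rw [MvPolynomial.notMem_support_iff.1 hm, map_zero, zero_mul])] at h2
    rw [← h2, Finset.sum_apply]
    refine Finset.sum_congr rfl fun m _ => ?_
    rw [Pi.mul_apply, Finsupp.prod, Finset.prod_apply]
    rfl
  -- all coefficients vanish almost everywhere
  have hcoef : ∀ m ∈ M, ∀ b ∈ range A₀,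
      ∀ᶠ i in (U : Filter ℕ), sw β ((G i).coeff m) b = 0 := by
    intro m hm b hb
    have h1 : MvPolynomial.coeff m Gt = 0 := by rw [hGt0, MvPolynomial.coeff_zero]
    rw [hGt, MvPolynomial.coeff_sum, Finset.sum_eq_single m] at h1
    · rw [MvPolynomial.coeff_monomial, if_pos rfl] at h1
      have h2 : (q m).map (mk U) = 0 := by
        have hinj := IsFractionRing.injective (UP U fun i => KX (C i))[X]
          (KX (UP U fun i => KX (C i)))
        exact (map_eq_zero_iff _ hinj).1 h1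
      have h3 : ((q m).map (mk U)).coeff b = 0 := by rw [h2, Polynomial.coeff_zero]
      rw [Polynomial.coeff_map, hqcoeff m b (Finset.mem_range.1 hb), mk_eq_zero] at h3
      filter_upwards [h3] with i hi
      have hinj := IsFractionRing.injective (C i)[X] (KX (C i))
      exact (map_eq_zero_iff _ hinj).1 hi
    · intro m' _ hm'
      rw [MvPolynomial.coeff_monomial, if_neg hm']
    · intro h
      exact absurd hm h
  have hall : ∀ᶠ i in (U : Filter ℕ), ∀ m ∈ M, ∀ b ∈ range A₀, sw β ((G i).coeff m) b = 0 := by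
    rw [Filter.eventually_all_finset]
    intro m hm
    rw [Filter.eventually_all_finset]
    intro b hb
    exact hcoef m hm b hb
  obtain ⟨i, hi⟩ := hall.exists
  apply hG i
  ext m : 1
  rw [MvPolynomial.coeff_zero]
  by_cases hm : m ∈ M
  · ext b c
    rw [Polynomial.coeff_zero, Polynomial.coeff_zero]
    by_cases hb : b < β
    · by_cases hc : c < A₀
      · rw [← sw_coeff ((G i).coeff m) c hb, hi m hm c (Finset.mem_range.2 hc),
          Polynomial.coeff_zero]
      · exact coeff_eq_zero_of_natDegree_lt (lt_of_lt_of_le ((hco i m).2 b) (not_lt.1 hc))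
    · rw [coeff_eq_zero_of_natDegree_lt (lt_of_lt_of_le (hco i m).1 (not_lt.1 hb)),
        Polynomial.coeff_zero]
  · exact MvPolynomial.notMem_support_iff.1 fun h => hm (hsupp i h)

theorem nv (hInd : S_Ind) (hEmb : S_Emb) (hTau : S_Tau) : S_NV := by
  intro g hg e A₀ β
  by_contra hcon
  push Not at hcon
  choose p hp C fC cC hle a ha D hD Y hY hdet hNV using hcon
  have hNV' : ∀ i, ∃ G : MvPolynomial (Up g) (@Polynomial (@Polynomial (C i) _) _), G ≠ 0 ∧
      G.totalDegree ≤ e ∧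
      (∀ m, (G.coeff m).natDegree < β ∧ ∀ b, ((G.coeff m).coeff b).natDegree < A₀) ∧
      MvPolynomial.eval₂ (evT (C i) (p i))
        (fun s : Up g => Sm (Qx (tX (C i)) (aX (a i))) (Y i) s.1.1 s.1.2) G = 0 := by
    intro i
    have h := hNV i
    rw [NVp] at h
    push Not at h
    obtain ⟨G, h1, h2, h3, h4⟩ := h
    exact ⟨G, h1, h2, h3, h4⟩
  choose G hG1 hG2 hG3 hG4 using hNV'
  exact nv_core hEmb hTau C p hle D hD _ (fun U hN τ hτ f' hf1 hf2 G' hG' =>
    hInd g hg U C p hN a ha D hD τ hτ f' hf1 hf2 Y hY hdet G' hG') G hG1 hG2 hG3 hG4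

theorem nv2 (hInd : S_Ind2) (hEmb : S_Emb) (hTau : S_Tau) : S_NV2 := by
  intro g hg e A₀ β
  by_contra hcon
  push Not at hcon
  choose p hp C fC cC hle a ha D hD Y hY hdet hNV using hcon
  have hNV' : ∀ i, ∃ G : MvPolynomial (Vars g) (@Polynomial (@Polynomial (C i) _) _), G ≠ 0 ∧
      G.totalDegree ≤ e ∧
      (∀ m, (G.coeff m).natDegree < β ∧ ∀ b, ((G.coeff m).coeff b).natDegree < A₀) ∧
      MvPolynomial.eval₂ (evT (C i) (p i)) (frv (Qx (tX (C i)) (aX (a i))) (Y i)) G = 0 := by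
    intro i
    have h := hNV i
    rw [NVp] at h
    push Not at h
    obtain ⟨G, h1, h2, h3, h4⟩ := h
    exact ⟨G, h1, h2, h3, h4⟩
  choose G hG1 hG2 hG3 hG4 using hNV'
  exact nv_core hEmb hTau C p hle D hD _ (fun U hN τ hτ f' hf1 hf2 G' hG' =>
    hInd g hg U C p hN a ha D hD τ hτ f' hf1 hf2 Y hY hdet G' hG') G hG1 hG2 hG3 hG4

end Pool.Agent.Helper72.BM
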