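import Pool.Agent.Helper62.BM.Stm

/-!
# Explicit matrices of the family (package P4)
-/

set_option autoImplicit false

open Polynomial Matrix Finset

namespace Pool.Agent.Helper72.BM

open Pool.Agent.Helper62.BM

section dd

variable {F : Type} [Field F] {n : ℕ} {a : Fin n → F}

/-- `d_j = f'(a_j)`. -/
def dd (a : Fin n → F) (j : Fin n) : F :=
  ∏ m ∈ univ.erase j, (a j - a m)

theorem dd_ne (ha : Function.Injective a) (j : Fin n) : dd a j ≠ 0 := by
  refine Finset.prod_ne_zero_iff.2 fun m hm => sub_ne_zero.2 fun h => ?_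
  exact (Finset.mem_erase.1 hm).1 (ha h).symm

theorem wt_eq (a : Fin n → F) (j : Fin n) : wt a j = (dd a j)⁻¹ := by
  simp [wt, dd, Finset.prod_inv_distrib]

theorem bp_eq (a : Fin n → F) (j : Fin n) : bp a j = Lagrange.nodal (univ.erase j) a := rfl

theorem bp_natDegree (a : Fin n → F) (j : Fin n) : (bp a j).natDegree < n := by
  rw [bp_eq, Lagrange.natDegree_nodal, Finset.card_erase_of_mem (Finset.mem_univ j),
    Finset.card_univ, Fintype.card_fin]
  have := j.2
  omega

theorem bp_eval (a : Fin n → F) (i j : Fin n) :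
    (bp a j).eval (a i) = if i = j then dd a j else 0 := by
  rw [bp_eq]
  split_ifs with h
  · subst h
    rw [Lagrange.eval_nodal]
    rfl
  · exact Lagrange.eval_nodal_at_node (Finset.mem_erase.2 ⟨h, Finset.mem_univ i⟩)

theorem vand_mul (a : Fin n → F) :
    Matrix.vandermonde a * Em a = Matrix.diagonal (dd a) := by
  ext i j
  rw [Matrix.mul_apply]
  have h : ∑ l, Matrix.vandermonde a i l * Em a l j = (bp a j).eval (a i) := by
    rw [Polynomial.eval_eq_sum_range' (bp_natDegree a j), ← Fin.sum_univ_eq_sum_range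
      (fun l => (bp a j).coeff l * a i ^ l)]
    exact Finset.sum_congr rfl fun l _ => by
      rw [Matrix.vandermonde_apply, Em, Matrix.of_apply, mul_comm]
  rw [h, bp_eval, Matrix.diagonal_apply]
  split_ifs with h
  · rw [h]
  · rfl

theorem eDet' (ha : Function.Injective a) : (Em a).det ≠ 0 := by
  intro h0
  have h := congrArg Matrix.det (vand_mul a)
  rw [Matrix.det_mul, h0, mul_zero, Matrix.det_diagonal] at h
  exact Finset.prod_ne_zero_iff.2 (fun j _ => dd_ne ha j) h.symm

end dd

theorem eDet : S_EDet := fun _F _ _n _a ha => eDet' ha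

section hp

variable {F : Type} [Field F] {n : ℕ}

theorem hp_monic (t : F) (a : Fin n → F) : (hp t a).Monic :=
  (monic_X_sub_C t).mul (monic_prod_of_monic _ _ fun j _ => monic_X_sub_C (a j))

theorem hp_natDegree (t : F) (a : Fin n → F) : (hp t a).natDegree = n + 1 := by
  have h : (∏ j, (X - C (a j)) : F[X]).natDegree = n := by
    have := Lagrange.natDegree_nodal (s := (univ : Finset (Fin n))) (v := a)
    rw [Finset.card_univ, Fintype.card_fin] at this
    exact this
  rw [hp, (monic_X_sub_C t).natDegree_mul (monic_prod_of_monic _ _ fun j _ => monic_X_sub_C (a j)),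
    h, natDegree_X_sub_C, add_comm]

theorem hp_coeff_top (t : F) (a : Fin n → F) : (hp t a).coeff (n + 1) = 1 := by
  have := hp_monic t a
  rw [Monic, leadingCoeff, hp_natDegree] at this
  exact this

theorem hp_coeff_gt (t : F) (a : Fin n → F) {k : ℕ} (hk : n + 1 < k) : (hp t a).coeff k = 0 :=
  coeff_eq_zero_of_natDegree_lt (by rw [hp_natDegree]; exact hk)

end hp

/-- A matrix whose entries vanish below the antidiagonal and do not vanish on it. -/
theorem det_anti {F : Type} [Field F] {n : ℕ} (M : Matrix (Fin n) (Fin n) F)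
    (h0 : ∀ i j : Fin n, n ≤ (i : ℕ) + j → M i j = 0)
    (h1 : ∀ i j : Fin n, (i : ℕ) + j + 1 = n → M i j ≠ 0) : M.det ≠ 0 := by
  have hperm := Matrix.det_permute' (Fin.revPerm : Equiv.Perm (Fin n)) M
  have htri : (M.submatrix id (Fin.revPerm : Equiv.Perm (Fin n))).det ≠ 0 := by
    rw [Matrix.det_of_isUpperTriangular]
    · refine Finset.prod_ne_zero_iff.2 fun i _ => ?_
      rw [Matrix.submatrix_apply]
      apply h1
      simp only [id, Fin.revPerm_apply, Fin.val_rev]
      have := i.2
      omega
    · intro i j hij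
      rw [Matrix.submatrix_apply]
      apply h0
      simp only [id, Fin.revPerm_apply, Fin.val_rev]
      have h1 := i.2
      have h2 := j.2
      have h3 : (j : ℕ) < i := hij
      omega
  rw [hperm] at htri
  exact right_ne_zero_of_mul htri

theorem cast_half_ne {F : Type} [Field F] {g : ℕ} (hg : ∀ m : ℕ, 1 ≤ m → m ≤ 2 * g → (m : F) ≠ 0)
    (hg1 : 1 ≤ g) {l m : ℕ} (hl : l < 2 * g) (hm : m < 2 * g) (hlm : l ≠ m) :
    ((l : F) - (m : F)) / 2 ≠ 0 := by
  have h2 : (2 : F) ≠ 0 := by
    have := hg 2 (by norm_num) (by omega)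
    exact_mod_cast this
  refine div_ne_zero ?_ h2
  rcases Nat.lt_or_gt_of_ne hlm with h | h
  · intro h0
    have := hg (m - l) (by omega) (by omega)
    rw [Nat.cast_sub h.le] at this
    exact this (by linear_combination -h0)
  · intro h0
    have := hg (l - m) (by omega) (by omega)
    rw [Nat.cast_sub h.le] at this
    exact this (by linear_combination h0)

theorem qxDet : S_QxDet := by
  intro F _ g hg x a hg1
  refine ⟨?_, ?_, ?_, ?_⟩
  · refine det_anti _ (fun i j hij => ?_) (fun i j hij => ?_)
    · rw [Qx, Matrix.of_apply, hp_coeff_gt x a (by omega), mul_zero]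
    · rw [Qx, Matrix.of_apply]
      have e : (i : ℕ) + j + 2 = 2 * g + 1 := by omega
      rw [e, hp_coeff_top, mul_one]
      exact cast_half_ne hg hg1 i.2 j.2 (by omega)
  · refine det_anti _ (fun i j hij => ?_) (fun i j hij => ?_)
    · rw [Matrix.submatrix_apply, Qx, Matrix.of_apply]
      simp only [lo, hi]
      rw [hp_coeff_gt x a (by omega), mul_zero]
    · rw [Matrix.submatrix_apply, Qx, Matrix.of_apply]
      simp only [lo, hi]
      have e : (i : ℕ) + (g + j) + 2 = 2 * g + 1 := by omega
      rw [e, hp_coeff_top, mul_one]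
      exact cast_half_ne hg hg1 (by have := i.2; omega) (by have := j.2; omega) (by omega)
  · ext i j
    rw [Matrix.submatrix_apply, Qx, Matrix.of_apply]
    simp only [hi]
    rw [hp_coeff_gt x a (by omega), mul_zero]
    rfl
  · ext i j
    rw [Matrix.transpose_apply, Matrix.neg_apply, Qx, Matrix.of_apply, Matrix.of_apply,
      show (j : ℕ) + i + 2 = i + j + 2 by omega]
    ring

end Pool.Agent.Helper72.BM
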