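import Pool.Agent.Helper72.BM.NV
import Pool.Agent.Helper62.BM.KStm

/-!
# The nonvanishing for the cyclic covers
-/

set_option autoImplicit false

open Polynomial Matrix Finset Filter

namespace Pool.Agent.Helper72.BM

open Pool.Agent.Helper62.BM

theorem knv (hInd : K_Ind) (hEmb : S_Emb) (hTau : S_Tau) : K_NV := by
  intro n m s d hn hs hsm hms h2s hdn e A₀ β
  by_contra hcon
  push Not at hcon
  choose p hp C fC cC hle a ha D hD Y hY hrk hNV using hcon
  have hNV' : ∀ i, ∃ G : MvPolynomial (Fin d × Fin n) (@Polynomial (@Polynomial (C i) _) _),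
      G ≠ 0 ∧ G.totalDegree ≤ e ∧
      (∀ m, (G.coeff m).natDegree < β ∧ ∀ b, ((G.coeff m).coeff b).natDegree < A₀) ∧
      MvPolynomial.eval₂ (evT (C i) (p i)) (fun u : Fin d × Fin n => Y i u.1 u.2) G = 0 := by
    intro i
    have h := hNV i
    rw [NVp] at h
    push Not at h
    obtain ⟨G, h1, h2, h3, h4⟩ := h
    exact ⟨G, h1, h2, h3, h4⟩
  choose G hG1 hG2 hG3 hG4 using hNV'
  exact nv_core hEmb hTau C p hle D hD _ (fun U hN τ hτ f' hf1 hf2 G' hG' =>
    hInd n m s d hn hs hsm hms h2s hdn U C p hN a ha D hD τ hτ f' hf1 hf2 Y hY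
      (fun i c hc => by
        by_contra h0
        exact h0 (hrk i c hc)) G' hG') G hG1 hG2 hG3 hG4

end Pool.Agent.Helper72.BM
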