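import Pool.Agent.Helper72.BM.Mat

/-!
# The bivector is horizontal (package P4)
-/

set_option autoImplicit false

open Polynomial Matrix Finset

namespace Pool.Agent.Helper72.BM

open Pool.Agent.Helper62.BM

section hor

variable {F : Type} [Field F] {n : ℕ} {a : Fin n → F}

/-- `∑ w_m b_m = 1`. -/
theorem sum_wt_bp (ha : Function.Injective a) (j : Fin n) :
    ∑ m, C (wt a m) * bp a m = 1 := by
  have h := Lagrange.sum_basis (s := (univ : Finset (Fin n))) (v := a) ha.injOn ⟨j, mem_univ j⟩
  rw [← h]
  refine Finset.sum_congr rfl fun m _ => ?_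
  rw [Lagrange.basis, wt, bp, map_prod, ← Finset.prod_mul_distrib]
  refine Finset.prod_congr rfl fun k _ => ?_
  rw [Lagrange.basisDivisor]

theorem bp_deriv_eval_ne (ha : Function.Injective a) {m j : Fin n} (h : m ≠ j) :
    (derivative (bp a m)).eval (a j) = dd a j / (a j - a m) := by
  have hjm : j ∈ univ.erase m := Finset.mem_erase.2 ⟨h.symm, mem_univ j⟩
  rw [bp_eq, Lagrange.eval_nodal_derivative_eval_node_eq hjm, Lagrange.eval_nodal,
    eq_div_iff (sub_ne_zero.2 fun e => h (ha e).symm), dd, Finset.erase_right_comm]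
  exact Finset.prod_erase_mul _ _ (Finset.mem_erase.2 ⟨h, mem_univ m⟩)

theorem bp_deriv_eval_self (ha : Function.Injective a) (j : Fin n) :
    (derivative (bp a j)).eval (a j) = ∑ m ∈ univ.erase j, dd a j / (a j - a m) := by
  rw [bp_eq, Lagrange.derivative_nodal, eval_finsetSum]
  refine Finset.sum_congr rfl fun m hm => ?_
  rw [Lagrange.eval_nodal, eq_div_iff (sub_ne_zero.2 fun e =>
    (Finset.mem_erase.1 hm).1 (ha e).symm), dd]
  exact Finset.prod_erase_mul _ _ hm

/-- The basic identity. -/
theorem sum_zero (ha : Function.Injective a) (j : Fin n) :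
    ∑ m ∈ univ.erase j, (wt a j + wt a m) / (a j - a m) = 0 := by
  have h := congrArg (fun q => (derivative q).eval (a j)) (sum_wt_bp ha j)
  simp only [derivative_sum, derivative_mul, derivative_C, zero_mul, zero_add, eval_finsetSum,
    eval_mul, eval_C, derivative_one, eval_zero] at h
  have h9 : ∑ m ∈ univ.erase j, wt a m * (derivative (bp a m)).eval (a j) =
      ∑ m ∈ univ.erase j, wt a m * (dd a j / (a j - a m)) :=
    Finset.sum_congr rfl fun m hm => by
      rw [bp_deriv_eval_ne ha (Finset.mem_erase.1 hm).1]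
  rw [← Finset.add_sum_erase _ _ (mem_univ j), bp_deriv_eval_self ha, h9, Finset.mul_sum,
    ← Finset.sum_add_distrib] at h
  have hd := dd_ne ha j
  have e : ∑ m ∈ univ.erase j, (wt a j + wt a m) / (a j - a m) =
      (dd a j)⁻¹ * ∑ m ∈ univ.erase j, (wt a j * (dd a j / (a j - a m)) +
        wt a m * (dd a j / (a j - a m))) := by
    rw [Finset.mul_sum]
    refine Finset.sum_congr rfl fun m _ => ?_
    field_simp
  rw [e, h, mul_zero]

theorem D_wt (D : Derivation ℤ F F) (hD : ∀ j, D (a j) = 0) (j : Fin n) : D (wt a j) = 0 := by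
  rw [wt_eq, Derivation.leibniz_inv]
  have h : D (dd a j) = 0 := by
    refine Finset.prod_induction (fun m => a j - a m) (fun y => D y = 0) (fun u v hu hv => ?_)
      D.map_one_eq_zero (fun m _ => ?_)
    · rw [Derivation.leibniz, hu, hv, smul_zero, smul_zero, add_zero]
    · rw [map_sub, hD, hD, sub_zero]
  rw [h, smul_zero]

end hor

theorem qbHor : S_QbHor := by
  intro F _ D h2 n x a hx hD ha i j
  have hxa : ∀ j, x - a j ≠ 0 := by
    intro j h
    have : x = a j := sub_eq_zero.1 h
    have h1 : D x = 0 := by rw [this, hD]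
    rw [hx] at h1
    exact one_ne_zero h1
  have hsub : ∀ {i j : Fin n}, i ≠ j → a i - a j ≠ 0 := fun h => sub_ne_zero.2 fun e => h (ha e)
  have hanti : ∀ i j, Qb x a i j = -Qb x a j i := by
    intro i j
    rw [Qb, Matrix.of_apply, Matrix.of_apply]
    by_cases h : i = j
    · rw [if_pos h, if_pos h.symm, neg_zero]
    · rw [if_neg h, if_neg (Ne.symm h)]
      have h3 := hsub h
      have h4 := hsub (Ne.symm h)
      rw [← neg_sub (a i) (a j)]
      field_simp
      ring
  rw [Matrix.add_apply, Matrix.mul_apply, Matrix.mul_apply]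
  have e1 : ∀ k, Bm x a i k * Qb x a k j = if i = k then 0 else (2 * (x - a k))⁻¹ * Qb x a k j := by
    intro k
    rw [Bm, Matrix.of_apply]
    split_ifs <;> simp
  have e2 : ∀ k, Qb x a i k * (Bm x a)ᵀ k j =
      if j = k then 0 else (2 * (x - a k))⁻¹ * Qb x a i k := by
    intro k
    rw [Matrix.transpose_apply, Bm, Matrix.of_apply]
    split_ifs
    · simp
    · ring
  rw [Finset.sum_congr rfl fun k _ => e1 k, Finset.sum_congr rfl fun k _ => e2 k]
  by_cases hij : i = j
  · subst hij
    have h0 : Qb x a i i = 0 := by rw [Qb, Matrix.of_apply, if_pos rfl]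
    rw [h0, map_zero, zero_add, ← Finset.sum_add_distrib]
    refine Finset.sum_eq_zero fun k _ => ?_
    split_ifs
    · simp
    · rw [hanti k i]
      ring
  · -- the general term for `k ≠ i, j`
    have hij' := hsub hij
    have hmain : ∀ k ∈ (univ.erase i).erase j,
        (2 * (x - a k))⁻¹ * Qb x a k j + (2 * (x - a k))⁻¹ * Qb x a i k =
        (4 : F)⁻¹ * ((wt a j + wt a k) / (a j - a k) - (wt a i + wt a k) / (a i - a k)) := by
      intro k hk
      have hkj : k ≠ j := (Finset.mem_erase.1 hk).1
      have hki : k ≠ i := (Finset.mem_erase.1 (Finset.mem_erase.1 hk).2).1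
      rw [Qb, Matrix.of_apply, Matrix.of_apply, if_neg hkj, if_neg (Ne.symm hki)]
      have h3 := hsub hkj
      have h4 := hsub (Ne.symm hki)
      have h5 := hxa k
      have h6 : a j - a k ≠ 0 := hsub (Ne.symm hkj)
      have h7 : (4 : F) ≠ 0 := by
        have : (4 : F) = 2 * 2 := by norm_num
        rw [this]
        exact mul_ne_zero h2 h2
      rw [← neg_sub (a k) (a j)] at h6 ⊢
      field_simp
      ring
    have s1 : ∑ k, (if i = k then 0 else (2 * (x - a k))⁻¹ * Qb x a k j) =
        ∑ k ∈ (univ.erase i).erase j, (2 * (x - a k))⁻¹ * Qb x a k j := by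
      rw [← Finset.add_sum_erase _ _ (mem_univ i), if_pos rfl, zero_add,
        ← Finset.add_sum_erase _ _ (Finset.mem_erase.2 ⟨Ne.symm hij, mem_univ j⟩), if_neg hij]
      have h0 : Qb x a j j = 0 := by rw [Qb, Matrix.of_apply, if_pos rfl]
      rw [h0, mul_zero, zero_add]
      refine Finset.sum_congr rfl fun k hk => ?_
      rw [if_neg (Ne.symm (Finset.mem_erase.1 (Finset.mem_erase.1 hk).2).1)]
    have s2 : ∑ k, (if j = k then 0 else (2 * (x - a k))⁻¹ * Qb x a i k) =
        ∑ k ∈ (univ.erase i).erase j, (2 * (x - a k))⁻¹ * Qb x a i k := by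
      rw [← Finset.add_sum_erase _ _ (mem_univ i), if_neg (Ne.symm hij)]
      have h0 : Qb x a i i = 0 := by rw [Qb, Matrix.of_apply, if_pos rfl]
      rw [h0, mul_zero, zero_add,
        ← Finset.add_sum_erase _ _ (Finset.mem_erase.2 ⟨Ne.symm hij, mem_univ j⟩), if_pos rfl,
        zero_add]
      refine Finset.sum_congr rfl fun k hk => ?_
      rw [if_neg (Ne.symm (Finset.mem_erase.1 hk).1)]
    rw [s1, s2, ← Finset.sum_add_distrib, Finset.sum_congr rfl hmain, ← Finset.mul_sum,
      Finset.sum_sub_distrib]
    have zj := sum_zero ha j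
    have zi := sum_zero ha i
    rw [← Finset.add_sum_erase _ _ (Finset.mem_erase.2 ⟨hij, mem_univ i⟩),
      Finset.erase_right_comm] at zj
    rw [← Finset.add_sum_erase _ _ (Finset.mem_erase.2 ⟨Ne.symm hij, mem_univ j⟩)] at zi
    have hDQ : D (Qb x a i j) = -(wt a i + wt a j) / (2 * (a i - a j)) := by
      rw [Qb, Matrix.of_apply, if_neg hij, Derivation.leibniz_div]
      have hden : D (2 * (a i - a j)) = 0 := by
        rw [Derivation.leibniz, map_sub, hD, hD, sub_zero, smul_zero, zero_add]
        have : D (2 : F) = 0 := by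
          have := D.map_natCast 2
          exact_mod_cast this
        rw [this, smul_zero]
      have hnum : D ((a i - x) * wt a j + (a j - x) * wt a i) = -(wt a i + wt a j) := by
        rw [map_add, Derivation.leibniz, Derivation.leibniz, map_sub, map_sub, hD, hD, hx,
          D_wt D hD, D_wt D hD]
        simp only [smul_eq_mul]
        ring
      rw [hden, hnum]
      simp only [smul_eq_mul]
      have h22 : 2 * (a i - a j) ≠ 0 := mul_ne_zero h2 hij'
      field_simp
      ring
    rw [hDQ]
    have e4 : (4 : F) = 2 * 2 := by norm_num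
    have hji := hsub (Ne.symm hij)
    have zj' : ∑ k ∈ (univ.erase i).erase j, (wt a j + wt a k) / (a j - a k) =
        (wt a j + wt a i) / (a i - a j) := by
      have : (wt a j + wt a i) / (a j - a i) = -((wt a j + wt a i) / (a i - a j)) := by
        rw [← neg_sub (a i) (a j), div_neg]
      rw [this] at zj
      linear_combination zj
    have zi' : ∑ k ∈ (univ.erase i).erase j, (wt a i + wt a k) / (a i - a k) =
        -((wt a i + wt a j) / (a i - a j)) := by
      linear_combination zi
    rw [zj', zi', e4]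
    field_simp
    ring

end Pool.Agent.Helper72.BM
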