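import Pool.Agent.Helper62.BM.Stm4
import Pool.Graph.R_pool_sql_team_seeded_3997aac3.Q267.DC.Sup2

/-!
# The reduction of a member modulo a place depends only on `t` modulo the place
-/

set_option autoImplicit false

open Finset Polynomial

namespace Pool.Agent.Helper72.BM

open NumberField IsDedekindDomain
open Pool.Agent.Helper62.BM
open Pool.Agent.Q267.OD (charP_res)

theorem hwMod : S_Mod := by
  intro K _ _ g n f φ G v hv t
  have := charP_res v hv
  have h1 : (t : v.asIdeal.ResidueField) =
      ((t % Ideal.absNorm v.asIdeal : ℕ) : v.asIdeal.ResidueField) :=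
    (CharP.natCast_eq_natCast' _ (Ideal.absNorm v.asIdeal) (Nat.mod_modEq _ _)).symm
  have hs : algebraMap (𝓞 K) v.asIdeal.ResidueField (φ.eval (t : 𝓞 K)) =
      algebraMap (𝓞 K) v.asIdeal.ResidueField
        (φ.eval ((t % Ideal.absNorm v.asIdeal : ℕ) : 𝓞 K)) := by
    rw [← Polynomial.eval₂_at_apply, ← Polynomial.eval₂_at_apply, map_natCast, map_natCast, h1]
  have hrd : rd v (memb f φ t) = rd v (memb f φ (t % Ideal.absNorm v.asIdeal)) := by
    unfold rd memb
    rw [Polynomial.map_mul, Polynomial.map_mul, Polynomial.map_sub, Polynomial.map_sub,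
      Polynomial.map_C, Polynomial.map_C, hs]
  have hc : (algebraMap (𝓞 K) v.asIdeal.ResidueField).comp
      (evalRingHom (φ.eval (t : 𝓞 K))) =
      (algebraMap (𝓞 K) v.asIdeal.ResidueField).comp
        (evalRingHom (φ.eval ((t % Ideal.absNorm v.asIdeal : ℕ) : 𝓞 K))) := by
    ext a
    · simp
    · simpa using hs
  unfold GoodOrd Avoids
  rw [hrd, hc]

end Pool.Agent.Helper72.BM
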